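import Pool.Agent.H88R3.MM.Rank

set_option autoImplicit false
set_option linter.unusedSectionVars false

/-!
# The sum of the ranks of the linear forms: approximate algorithms
-/

namespace Pool.Agent.H88R3.MM

open Finset Polynomial

variable {F : Type*} [Field F]

/-- An approximate bilinear algorithm: the coefficients are polynomials in `X`, and `X ^ h` times
the product is computed up to multiples of `X ^ (h + 1)`. -/
def IsApprox {I J K L : Type*} [Fintype I] [Fintype J] [Fintype K] [Fintype L] (h : ℕ)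
    (U : L → Matrix I J F[X]) (V : L → Matrix J K F[X]) (W : L → Matrix I K F[X]) : Prop :=
  ∀ (A : Matrix I J F) (B : Matrix J K F), ∃ R : Matrix I K F[X], ∀ i k,
    X ^ h * C ((A * B) i k) + X ^ (h + 1) * R i k =
      ∑ l, (∑ i, ∑ j, U l i j * C (A i j)) * (∑ j, ∑ k, V l j k * C (B j k)) * W l i k

/-- the rank over the field of rational functions -/
noncomputable def rk {m n : Type*} [Fintype n] (A : Matrix m n F[X]) : ℕ :=
  (A.map (algebraMap F[X] (RatFunc F))).rank

theorem rank_perturbed {m n : Type*} [Fintype m] [Fintype n] [DecidableEq n] (e : m ≃ n) (h : ℕ)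
    (R : Matrix m n F[X]) :
    rk (Matrix.of fun x y => X ^ h * (if e x = y then (1 : F[X]) else 0) + X ^ (h + 1) * R x y) =
      Fintype.card n := by
  let Q : Matrix n n F[X] := 1 + (X : F[X]) • R.submatrix e.symm id
  have h1 : (Matrix.of fun x y => X ^ h * (if e x = y then (1 : F[X]) else 0) +
      X ^ (h + 1) * R x y) = ((X ^ h : F[X]) • Q).submatrix e (Equiv.refl n) := by
    ext1 x y
    simp only [Q, Matrix.of_apply, Matrix.submatrix_apply, Matrix.smul_apply, Matrix.add_apply,
      Matrix.one_apply, smul_eq_mul, Equiv.symm_apply_apply, id, Equiv.refl_apply]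
    ring
  have h2 : (Q.det).eval 0 = 1 := by
    have h3 : (Q.det).eval 0 = (Q.map (Polynomial.evalRingHom (0 : F))).det := by
      rw [← Polynomial.coe_evalRingHom, RingHom.map_det]
      rfl
    rw [h3]
    have h4 : Q.map (Polynomial.evalRingHom (0 : F)) = 1 := by
      ext1 x y
      simp only [Q, Matrix.map_apply, Matrix.add_apply, Matrix.smul_apply, smul_eq_mul,
        Polynomial.coe_evalRingHom, Matrix.one_apply]
      split_ifs <;> simp
    rw [h4, Matrix.det_one]
  have h3 : Q.det ≠ 0 := by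
    intro h4
    rw [h4, Polynomial.eval_zero] at h2
    exact zero_ne_one h2
  rw [rk, h1, ← Matrix.submatrix_map, Matrix.rank_submatrix]
  refine Matrix.rank_of_isUnit _ ?_
  rw [Matrix.isUnit_iff_isUnit_det, isUnit_iff_ne_zero]
  have h5 : (((X ^ h : F[X]) • Q).map (algebraMap F[X] (RatFunc F))).det =
      algebraMap F[X] (RatFunc F) ((X ^ h : F[X]) • Q).det := by
    rw [RingHom.map_det]
    rfl
  rw [h5, Matrix.det_smul]
  intro h6
  have h7 := (map_eq_zero_iff (algebraMap F[X] (RatFunc F)) (RatFunc.algebraMap_injective F)).1 h6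
  rcases mul_eq_zero.1 h7 with h8 | h8
  · exact pow_ne_zero _ (pow_ne_zero _ Polynomial.X_ne_zero) h8
  · exact h3 h8

section main

variable {I J K L : Type*} [Fintype I] [Fintype J] [Fintype K] [Fintype L]
  {U : L → Matrix I J F[X]} {V : L → Matrix J K F[X]} {W : L → Matrix I K F[X]}

theorem IsApprox.coeff [DecidableEq I] [DecidableEq J] [DecidableEq K] {h : ℕ}
    (ha : IsApprox h U V W) (i : I) (j j' : J) (k : K) :
    ∃ R : Matrix I K F[X], ∀ i' k', ∑ l, U l i j * V l j' k * W l i' k' =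
      X ^ h * (if i = i' ∧ j = j' ∧ k = k' then 1 else 0) + X ^ (h + 1) * R i' k' := by
  obtain ⟨R, hR⟩ := ha (Matrix.single i j 1) (Matrix.single j' k 1)
  refine ⟨R, fun i' k' => ?_⟩
  have h1 := hR i' k'
  have e1 : ∀ l, (∑ a, ∑ b, U l a b * C (Matrix.single i j (1 : F) a b)) = U l i j := by
    intro l
    rw [Finset.sum_eq_single i, Finset.sum_eq_single j]
    · simp
    · intro b _ hb
      simp [Ne.symm hb]
    · simp
    · intro a _ ha
      simp [Ne.symm ha]
    · simp
  have e2 : ∀ l, (∑ a, ∑ b, V l a b * C (Matrix.single j' k (1 : F) a b)) = V l j' k := by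
    intro l
    rw [Finset.sum_eq_single j', Finset.sum_eq_single k]
    · simp
    · intro b _ hb
      simp [Ne.symm hb]
    · simp
    · intro a _ ha
      simp [Ne.symm ha]
    · simp
  simp only [e1, e2] at h1
  rw [← h1]
  congr 2
  by_cases hj : j = j'
  · subst hj
    rw [Matrix.single_mul_single_same, mul_one, Matrix.single_apply]
    by_cases hc : i = i' ∧ k = k'
    · rw [if_pos hc, if_pos ⟨hc.1, rfl, hc.2⟩, map_one]
    · rw [if_neg hc, if_neg (fun h => hc ⟨h.1, h.2.2⟩), map_zero]
  · rw [Matrix.single_mul_single_of_ne _ _ _ _ hj, if_neg (fun hc => hj hc.2.1), Matrix.zero_apply,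
      map_zero]

theorem rk_sum_le {m n : Type*} [Fintype m] [Fintype n] (s : Finset L) (A : L → Matrix m n F[X]) :
    rk (∑ l ∈ s, A l) ≤ ∑ l ∈ s, rk (A l) := by
  unfold rk
  refine le_trans (le_of_eq ?_) (rank_sum_le s fun l => (A l).map (algebraMap F[X] (RatFunc F)))
  congr 1
  ext1 x y
  rw [Matrix.map_apply, Matrix.sum_apply, map_sum, Matrix.sum_apply]
  rfl

theorem rk_scaled {m n I J : Type*} [Fintype m] [Fintype n] [Fintype I] [Fintype J]
    (A : Matrix I J F[X]) (f : m → F[X]) (g : n → F[X]) (r : m → I) (c : n → J) :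
    rk (Matrix.of fun x y => f x * A (r x) (c y) * g y) ≤ rk A := by
  unfold rk
  refine le_trans (le_of_eq ?_) (rank_scaled (A.map (algebraMap F[X] (RatFunc F)))
    (fun x => algebraMap F[X] (RatFunc F) (f x)) (fun x => algebraMap F[X] (RatFunc F) (g x)) r c)
  congr 1
  ext1 x y
  simp only [Matrix.map_apply, Matrix.of_apply, map_mul]

theorem IsApprox.exists_error [DecidableEq I] [DecidableEq J] [DecidableEq K] {h : ℕ}
    (ha : IsApprox h U V W) :
    ∃ R : I → J → J → K → I → K → F[X], ∀ i j j' k i' k', ∑ l, U l i j * V l j' k * W l i' k' =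
      X ^ h * (if i = i' ∧ j = j' ∧ k = k' then 1 else 0) + X ^ (h + 1) * R i j j' k i' k' := by
  choose R hR using ha.coeff
  exact ⟨R, fun i j j' k i' k' => hR i j j' k i' k'⟩

/-- The matrices of the first linear forms. -/
theorem IsApprox.card_le_U {h : ℕ} (ha : IsApprox h U V W) :
    Fintype.card I * Fintype.card J * Fintype.card K ≤ ∑ l, rk (U l) := by
  classical
  obtain ⟨R, hR⟩ := ha.exists_error
  let e : I × (J × K) ≃ J × (I × K) :=
    { toFun := fun x => (x.2.1, (x.1, x.2.2))
      invFun := fun y => (y.2.1, (y.1, y.2.2))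
      left_inv := fun _ => rfl
      right_inv := fun _ => rfl }
  let M : L → Matrix (I × (J × K)) (J × (I × K)) F[X] := fun l =>
    Matrix.of fun x y => V l x.2.1 x.2.2 * U l x.1 y.1 * W l y.2.1 y.2.2
  have h1 : (∑ l, M l) = Matrix.of fun x y => X ^ h * (if e x = y then (1 : F[X]) else 0) +
      X ^ (h + 1) * R x.1 y.1 x.2.1 x.2.2 y.2.1 y.2.2 := by
    ext1 x y
    obtain ⟨i, j', k⟩ := x
    obtain ⟨j, i', k'⟩ := y
    rw [Matrix.sum_apply]
    have h2 := hR i j j' k i' k'
    simp only [M, e, Matrix.of_apply, Equiv.coe_fn_mk, Prod.mk.injEq]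
    rw [Finset.sum_congr rfl fun l _ => by
      rw [show V l j' k * U l i j * W l i' k' = U l i j * V l j' k * W l i' k' by ring], h2]
    congr 2
    refine if_congr ?_ rfl rfl
    constructor
    · rintro ⟨h3, h4, h5⟩
      exact ⟨h4.symm, h3, h5⟩
    · rintro ⟨h3, h4, h5⟩
      exact ⟨h4, h3.symm, h5⟩
  have h3 := rk_sum_le univ M
  rw [h1] at h3
  have h5 := (rank_perturbed e h
    (Matrix.of fun x y => R x.1 y.1 x.2.1 x.2.2 y.2.1 y.2.2)).symm.le.trans h3
  have h4 : ∀ l, rk (M l) ≤ rk (U l) := fun l =>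
    rk_scaled (U l) (fun x : I × (J × K) => V l x.2.1 x.2.2)
      (fun y : J × (I × K) => W l y.2.1 y.2.2) Prod.fst Prod.fst
  refine le_trans (le_of_eq ?_) (h5.trans (sum_le_sum fun l _ => h4 l))
  rw [Fintype.card_prod, Fintype.card_prod]
  ring

/-- The matrices of the second linear forms. -/
theorem IsApprox.card_le_V {h : ℕ} (ha : IsApprox h U V W) :
    Fintype.card I * Fintype.card J * Fintype.card K ≤ ∑ l, rk (V l) := by
  classical
  obtain ⟨R, hR⟩ := ha.exists_error
  let e : J × (I × K) ≃ K × (I × J) :=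
    { toFun := fun x => (x.2.2, (x.2.1, x.1))
      invFun := fun y => (y.2.2, (y.2.1, y.1))
      left_inv := fun _ => rfl
      right_inv := fun _ => rfl }
  let M : L → Matrix (J × (I × K)) (K × (I × J)) F[X] := fun l =>
    Matrix.of fun x y => W l x.2.1 x.2.2 * V l x.1 y.1 * U l y.2.1 y.2.2
  have h1 : (∑ l, M l) = Matrix.of fun x y => X ^ h * (if e x = y then (1 : F[X]) else 0) +
      X ^ (h + 1) * R y.2.1 y.2.2 x.1 y.1 x.2.1 x.2.2 := by
    ext1 x y
    obtain ⟨j', i', k'⟩ := x
    obtain ⟨k, i, j⟩ := y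
    rw [Matrix.sum_apply]
    have h2 := hR i j j' k i' k'
    simp only [M, e, Matrix.of_apply, Equiv.coe_fn_mk, Prod.mk.injEq]
    rw [Finset.sum_congr rfl fun l _ => by
      rw [show W l i' k' * V l j' k * U l i j = U l i j * V l j' k * W l i' k' by ring], h2]
    congr 2
    refine if_congr ?_ rfl rfl
    constructor
    · rintro ⟨h3, h4, h5⟩
      exact ⟨h5.symm, h3.symm, h4.symm⟩
    · rintro ⟨h3, h4, h5⟩
      exact ⟨h4.symm, h5.symm, h3.symm⟩
  have h3 := rk_sum_le univ M
  rw [h1] at h3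
  have h5 := (rank_perturbed e h
    (Matrix.of fun x y => R y.2.1 y.2.2 x.1 y.1 x.2.1 x.2.2)).symm.le.trans h3
  have h4 : ∀ l, rk (M l) ≤ rk (V l) := fun l =>
    rk_scaled (V l) (fun x : J × (I × K) => W l x.2.1 x.2.2)
      (fun y : K × (I × J) => U l y.2.1 y.2.2) Prod.fst Prod.fst
  refine le_trans (le_of_eq ?_) (h5.trans (sum_le_sum fun l _ => h4 l))
  rw [Fintype.card_prod, Fintype.card_prod]
  ring

/-- The matrices with which the products enter into the result. -/
theorem IsApprox.card_le_W {h : ℕ} (ha : IsApprox h U V W) :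
    Fintype.card I * Fintype.card J * Fintype.card K ≤ ∑ l, rk (W l) := by
  classical
  obtain ⟨R, hR⟩ := ha.exists_error
  let e : I × (J × K) ≃ K × (I × J) :=
    { toFun := fun x => (x.2.2, (x.1, x.2.1))
      invFun := fun y => (y.2.1, (y.2.2, y.1))
      left_inv := fun _ => rfl
      right_inv := fun _ => rfl }
  let M : L → Matrix (I × (J × K)) (K × (I × J)) F[X] := fun l =>
    Matrix.of fun x y => V l x.2.1 x.2.2 * W l x.1 y.1 * U l y.2.1 y.2.2
  have h1 : (∑ l, M l) = Matrix.of fun x y => X ^ h * (if e x = y then (1 : F[X]) else 0) +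
      X ^ (h + 1) * R y.2.1 y.2.2 x.2.1 x.2.2 x.1 y.1 := by
    ext1 x y
    obtain ⟨i', j', k⟩ := x
    obtain ⟨k', i, j⟩ := y
    rw [Matrix.sum_apply]
    have h2 := hR i j j' k i' k'
    simp only [M, e, Matrix.of_apply, Equiv.coe_fn_mk, Prod.mk.injEq]
    rw [Finset.sum_congr rfl fun l _ => by
      rw [show V l j' k * W l i' k' * U l i j = U l i j * V l j' k * W l i' k' by ring], h2]
    congr 2
    refine if_congr ?_ rfl rfl
    constructor
    · rintro ⟨h3, h4, h5⟩
      exact ⟨h5, h3.symm, h4.symm⟩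
    · rintro ⟨h3, h4, h5⟩
      exact ⟨h4.symm, h5.symm, h3⟩
  have h3 := rk_sum_le univ M
  rw [h1] at h3
  have h5 := (rank_perturbed e h
    (Matrix.of fun x y => R y.2.1 y.2.2 x.2.1 x.2.2 x.1 y.1)).symm.le.trans h3
  have h4 : ∀ l, rk (M l) ≤ rk (W l) := fun l =>
    rk_scaled (W l) (fun x : I × (J × K) => V l x.2.1 x.2.2)
      (fun y : K × (I × J) => U l y.2.1 y.2.2) Prod.fst Prod.fst
  refine le_trans (le_of_eq ?_) (h5.trans (sum_le_sum fun l _ => h4 l))
  rw [Fintype.card_prod, Fintype.card_prod]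
  ring

end main

end Pool.Agent.H88R3.MM
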