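import Pool.Agent.H88R3.MM.Rank
import Pool.Agent.H522R2.Circuit

set_option autoImplicit false

/-!
# Arithmetic circuits for matrix multiplication and the ranks of their linear forms
-/

namespace Pool.Agent.H88R3.MM

open Finset Pool.Agent.H522R2 Pool.Agent.H522R2.Circuit

/-- the variables: the entries `a_{ik}` (left summand) and `b_{kj}` (right summand) -/
abbrev Vars (m : ℕ) : Type := (Fin m × Fin m) ⊕ (Fin m × Fin m)

/-- The entry `c_{ij} = ∑ k, a_{ik} b_{kj}` of the product of two generic `m × m` matrices. -/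
noncomputable def entry (F : Type*) [Field F] (m : ℕ) (i j : Fin m) : MvPolynomial (Vars m) F :=
  ∑ k : Fin m, MvPolynomial.X (Sum.inl (i, k)) * MvPolynomial.X (Sum.inr (k, j))

section

variable {F : Type*} [Field F] {m : ℕ}

/-- the matrix of the coefficients of the variables `a_{ik}` in a polynomial -/
noncomputable def linA (p : MvPolynomial (Vars m) F) : Matrix (Fin m) (Fin m) F :=
  Matrix.of fun i k => p.coeff (Finsupp.single (Sum.inl (i, k)) 1)

/-- the matrix of the coefficients of the variables `b_{kj}` in a polynomial -/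
noncomputable def linB (p : MvPolynomial (Vars m) F) : Matrix (Fin m) (Fin m) F :=
  Matrix.of fun k j => p.coeff (Finsupp.single (Sum.inr (k, j)) 1)

/-- the two inputs of a multiplication gate -/
def inp {V : Type*} (C : Circuit F V) (g : Fin C.nodes) : Fin C.nodes × Fin C.nodes :=
  match C.gate g with
  | .mul i j => (C.up g i, C.up g j)
  | _ => (g, g)

theorem coeff_lin_mul {σ : Type*} (p q : MvPolynomial σ F) (x : σ) :
    (p * q).coeff (Finsupp.single x 1) =
      p.coeff 0 * q.coeff (Finsupp.single x 1) + p.coeff (Finsupp.single x 1) * q.coeff 0 := by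
  classical
  rw [MvPolynomial.coeff_mul, Finsupp.antidiagonal_single]
  simp [Finset.Nat.antidiagonal_succ]

theorem coeff_zero_mul {σ : Type*} (p q : MvPolynomial σ F) :
    (p * q).coeff 0 = p.coeff 0 * q.coeff 0 := by
  classical
  simp [MvPolynomial.coeff_mul]

variable {X Y : Type*}

theorem jc_eq (C : Circuit F (X ⊕ Y)) (k : Fin C.nodes) : jc C k = (C.poly k).coeff 0 := by
  obtain ⟨k, hk⟩ := k
  induction k using Nat.strong_induction_on with
  | _ k ih =>
    rw [poly, jc]
    cases h : C.gate ⟨k, hk⟩ with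
    | var x => simp
    | const c => simp
    | add i j =>
      have h1 := ih i i.2 (i.2.trans hk)
      have h2 := ih j j.2 (j.2.trans hk)
      simp only [MvPolynomial.coeff_add]
      rw [show C.up ⟨k, hk⟩ i = ⟨i, i.2.trans hk⟩ from rfl,
        show C.up ⟨k, hk⟩ j = ⟨j, j.2.trans hk⟩ from rfl, h1, h2]
    | mul i j =>
      have h1 := ih i i.2 (i.2.trans hk)
      have h2 := ih j j.2 (j.2.trans hk)
      simp only [coeff_zero_mul]
      rw [show C.up ⟨k, hk⟩ i = ⟨i, i.2.trans hk⟩ from rfl,
        show C.up ⟨k, hk⟩ j = ⟨j, j.2.trans hk⟩ from rfl, h1, h2]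

theorem jA_eq [DecidableEq X] (C : Circuit F (X ⊕ Y)) (k : Fin C.nodes) (x : X) :
    jA C k (Pi.single x 1) = (C.poly k).coeff (Finsupp.single (Sum.inl x) 1) := by
  classical
  obtain ⟨k, hk⟩ := k
  induction k using Nat.strong_induction_on with
  | _ k ih =>
    rw [poly, jA]
    cases h : C.gate ⟨k, hk⟩ with
    | var y =>
      cases y with
      | inl y =>
        simp only [LinearMap.proj_apply, MvPolynomial.coeff_X', Pi.single_apply]
        refine if_congr ?_ rfl rfl
        rw [Finsupp.single_left_inj one_ne_zero]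
        exact ⟨fun h => by rw [h], fun h => (Sum.inl_injective h)⟩
      | inr y =>
        simp only [MvPolynomial.coeff_X', LinearMap.zero_apply]
        rw [if_neg]
        rw [Finsupp.single_left_inj one_ne_zero]
        exact fun h => by cases h
    | const c =>
      simp only [MvPolynomial.coeff_C, LinearMap.zero_apply]
      rw [if_neg]
      intro h0
      have := congrArg (fun f => f (Sum.inl x)) h0
      simp at this
    | add i j =>
      have h1 := ih i i.2 (i.2.trans hk)
      have h2 := ih j j.2 (j.2.trans hk)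
      simp only [MvPolynomial.coeff_add, LinearMap.add_apply]
      rw [show C.up ⟨k, hk⟩ i = ⟨i, i.2.trans hk⟩ from rfl,
        show C.up ⟨k, hk⟩ j = ⟨j, j.2.trans hk⟩ from rfl, h1, h2]
    | mul i j =>
      have h1 := ih i i.2 (i.2.trans hk)
      have h2 := ih j j.2 (j.2.trans hk)
      simp only [coeff_lin_mul, LinearMap.add_apply, LinearMap.smul_apply, smul_eq_mul]
      rw [show C.up ⟨k, hk⟩ i = ⟨i, i.2.trans hk⟩ from rfl,
        show C.up ⟨k, hk⟩ j = ⟨j, j.2.trans hk⟩ from rfl, h1, h2, jc_eq, jc_eq]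
      ring

theorem jB_eq [DecidableEq Y] (C : Circuit F (X ⊕ Y)) (k : Fin C.nodes) (x : Y) :
    jB C k (Pi.single x 1) = (C.poly k).coeff (Finsupp.single (Sum.inr x) 1) := by
  classical
  obtain ⟨k, hk⟩ := k
  induction k using Nat.strong_induction_on with
  | _ k ih =>
    rw [poly, jB]
    cases h : C.gate ⟨k, hk⟩ with
    | var y =>
      cases y with
      | inr y =>
        simp only [LinearMap.proj_apply, MvPolynomial.coeff_X', Pi.single_apply]
        refine if_congr ?_ rfl rfl
        rw [Finsupp.single_left_inj one_ne_zero]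
        exact ⟨fun h => by rw [h], fun h => (Sum.inr_injective h)⟩
      | inl y =>
        simp only [MvPolynomial.coeff_X', LinearMap.zero_apply]
        rw [if_neg]
        rw [Finsupp.single_left_inj one_ne_zero]
        exact fun h => by cases h
    | const c =>
      simp only [MvPolynomial.coeff_C, LinearMap.zero_apply]
      rw [if_neg]
      intro h0
      have := congrArg (fun f => f (Sum.inr x)) h0
      simp at this
    | add i j =>
      have h1 := ih i i.2 (i.2.trans hk)
      have h2 := ih j j.2 (j.2.trans hk)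
      simp only [MvPolynomial.coeff_add, LinearMap.add_apply]
      rw [show C.up ⟨k, hk⟩ i = ⟨i, i.2.trans hk⟩ from rfl,
        show C.up ⟨k, hk⟩ j = ⟨j, j.2.trans hk⟩ from rfl, h1, h2]
    | mul i j =>
      have h1 := ih i i.2 (i.2.trans hk)
      have h2 := ih j j.2 (j.2.trans hk)
      simp only [coeff_lin_mul, LinearMap.add_apply, LinearMap.smul_apply, smul_eq_mul]
      rw [show C.up ⟨k, hk⟩ i = ⟨i, i.2.trans hk⟩ from rfl,
        show C.up ⟨k, hk⟩ j = ⟨j, j.2.trans hk⟩ from rfl, h1, h2, jc_eq, jc_eq]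
      ring

open Classical in
/-- The bilinear part at a node is a linear combination of the products of the linear parts at
the inputs of the nonscalar multiplication gates. -/
theorem exists_comb (C : Circuit F (X ⊕ Y)) (k : Fin C.nodes) :
    ∃ c : {g : Fin C.nodes // C.IsNonscalar g} → F, ∀ (a : X → F) (b : Y → F),
      jQ C a b k = ∑ g, c g * (jA C (inp C g.1).1 a * jB C (inp C g.1).2 b +
        jA C (inp C g.1).2 a * jB C (inp C g.1).1 b) := by
  obtain ⟨k, hk⟩ := k
  induction k using Nat.strong_induction_on with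
  | _ k ih =>
    cases h : C.gate ⟨k, hk⟩ with
    | var y =>
      refine ⟨0, fun a b => ?_⟩
      rw [jQ, h]
      simp
    | const c =>
      refine ⟨0, fun a b => ?_⟩
      rw [jQ, h]
      simp
    | add i j =>
      obtain ⟨c1, h1⟩ := ih i i.2 (i.2.trans hk)
      obtain ⟨c2, h2⟩ := ih j j.2 (j.2.trans hk)
      refine ⟨fun g => c1 g + c2 g, fun a b => ?_⟩
      rw [jQ, h]
      simp only
      rw [show C.up ⟨k, hk⟩ i = ⟨i, i.2.trans hk⟩ from rfl,
        show C.up ⟨k, hk⟩ j = ⟨j, j.2.trans hk⟩ from rfl, h1, h2, ← Finset.sum_add_distrib]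
      exact Finset.sum_congr rfl fun g _ => by ring
    | mul i j =>
      obtain ⟨c1, h1⟩ := ih i i.2 (i.2.trans hk)
      obtain ⟨c2, h2⟩ := ih j j.2 (j.2.trans hk)
      have hin : inp C ⟨k, hk⟩ = (C.up ⟨k, hk⟩ i, C.up ⟨k, hk⟩ j) := by
        unfold inp
        rw [h]
      by_cases hns : C.IsNonscalar ⟨k, hk⟩
      · refine ⟨fun g => jc C (C.up ⟨k, hk⟩ i) * c2 g + jc C (C.up ⟨k, hk⟩ j) * c1 g +
          (if g = ⟨⟨k, hk⟩, hns⟩ then 1 else 0), fun a b => ?_⟩
        rw [jQ, h]
        simp only
        rw [show jQ C a b (C.up ⟨k, hk⟩ i) = _ from h1 a b,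
          show jQ C a b (C.up ⟨k, hk⟩ j) = _ from h2 a b]
        simp only [add_mul, Finset.sum_add_distrib, ite_mul, one_mul, zero_mul,
          Finset.sum_ite_eq', Finset.mem_univ, if_true, hin, Finset.mul_sum, mul_assoc]
      · refine ⟨fun g => jc C (C.up ⟨k, hk⟩ i) * c2 g + jc C (C.up ⟨k, hk⟩ j) * c1 g,
          fun a b => ?_⟩
        rw [jQ, h]
        simp only
        rw [show jQ C a b (C.up ⟨k, hk⟩ i) = _ from h1 a b,
          show jQ C a b (C.up ⟨k, hk⟩ j) = _ from h2 a b]
        have hz : jA C (C.up ⟨k, hk⟩ i) a * jB C (C.up ⟨k, hk⟩ j) b +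
            jA C (C.up ⟨k, hk⟩ j) a * jB C (C.up ⟨k, hk⟩ i) b = 0 := by
          have h3 : (∃ c : F, C.poly (C.up ⟨k, hk⟩ i) = MvPolynomial.C c) ∨
              ∃ c : F, C.poly (C.up ⟨k, hk⟩ j) = MvPolynomial.C c := by
            by_contra hcon
            push Not at hcon
            exact hns ⟨i, j, h, hcon.1, hcon.2⟩
          rcases h3 with ⟨c, hc⟩ | ⟨c, hc⟩
          · rw [jA_eq_zero_of_const C _ c hc, jB_eq_zero_of_const C _ c hc]
            ring
          · rw [jA_eq_zero_of_const C _ c hc, jB_eq_zero_of_const C _ c hc]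
            ring
        rw [hz, add_zero]
        simp only [add_mul, Finset.sum_add_distrib, Finset.mul_sum, mul_assoc]

theorem jA_sum (C : Circuit F (Vars m)) (k : Fin C.nodes) (A : Matrix (Fin m) (Fin m) F) :
    jA C k (fun x => A x.1 x.2) = ∑ i, ∑ j, linA (C.poly k) i j * A i j := by
  classical
  rw [LinearMap.pi_apply_eq_sum_univ (jA C k), Fintype.sum_prod_type]
  refine Finset.sum_congr rfl fun i _ => Finset.sum_congr rfl fun j _ => ?_
  have h : (fun x => if ((i, j) : Fin m × Fin m) = x then (1 : F) else 0) =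
      Pi.single ((i, j) : Fin m × Fin m) 1 := by
    funext x
    rw [Pi.single_apply]
    exact if_congr eq_comm rfl rfl
  rw [h, jA_eq, smul_eq_mul, mul_comm]
  rfl

theorem jB_sum (C : Circuit F (Vars m)) (k : Fin C.nodes) (A : Matrix (Fin m) (Fin m) F) :
    jB C k (fun x => A x.1 x.2) = ∑ i, ∑ j, linB (C.poly k) i j * A i j := by
  classical
  rw [LinearMap.pi_apply_eq_sum_univ (jB C k), Fintype.sum_prod_type]
  refine Finset.sum_congr rfl fun i _ => Finset.sum_congr rfl fun j _ => ?_
  have h : (fun x => if ((i, j) : Fin m × Fin m) = x then (1 : F) else 0) =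
      Pi.single ((i, j) : Fin m × Fin m) 1 := by
    funext x
    rw [Pi.single_apply]
    exact if_congr eq_comm rfl rfl
  rw [h, jB_eq, smul_eq_mul, mul_comm]
  rfl

theorem ev_entry (i j : Fin m) (a b : Fin m × Fin m → F) :
    (ev a b (entry F m i j)).snd.snd = ∑ k, a (i, k) * b (k, j) := by
  unfold entry
  rw [map_sum]
  have h : ∀ s : Finset (Fin m), (∑ k ∈ s, ev a b (MvPolynomial.X (Sum.inl (i, k)) *
      MvPolynomial.X (Sum.inr (k, j)))).snd.snd = ∑ k ∈ s, a (i, k) * b (k, j) := by
    intro s
    induction s using Finset.induction_on with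
    | empty => simp
    | insert k s hk ih =>
      rw [Finset.sum_insert hk, Finset.sum_insert hk, TrivSqZeroExt.snd_add,
        TrivSqZeroExt.snd_add, ih]
      congr 1
      simp [ev]
  exact h univ

open Classical in
/-- the algorithm extracted from a circuit -/
theorem exists_alg (C : Circuit F (Vars m))
    (hC : ∀ i j, ∃ k : Fin C.nodes, C.poly k = entry F m i j) :
    ∃ W : {g : Fin C.nodes // C.IsNonscalar g} → Matrix (Fin m) (Fin m) F,
      IsAlg (L := {g : Fin C.nodes // C.IsNonscalar g} × Bool)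
        (fun l => linA (C.poly (if l.2 then (inp C l.1.1).2 else (inp C l.1.1).1)))
        (fun l => linB (C.poly (if l.2 then (inp C l.1.1).1 else (inp C l.1.1).2)))
        (fun l => W l.1) := by
  choose out hout using hC
  choose c hc using fun k => exists_comb C k
  refine ⟨fun g => Matrix.of fun i j => c (out i j) g, fun A B => ?_⟩
  ext i j
  have h1 : (A * B) i j = jQ C (fun x => A x.1 x.2) (fun x => B x.1 x.2) (out i j) := by
    rw [← (ev_poly C (fun x : Fin m × Fin m => A x.1 x.2) (fun x => B x.1 x.2) (out i j)).2.2.2,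
      hout, ev_entry, Matrix.mul_apply]
  rw [h1, hc, Matrix.sum_apply, Fintype.sum_prod_type]
  refine Finset.sum_congr rfl fun g _ => ?_
  rw [Fintype.sum_bool]
  simp only [Matrix.smul_apply, smul_eq_mul, Matrix.of_apply, if_true, Bool.false_eq_true,
    if_false, jA_sum, jB_sum]
  ring

open Classical in
theorem circuit_A (C : Circuit F (Vars m))
    (hC : ∀ i j, ∃ k : Fin C.nodes, C.poly k = entry F m i j) :
    m ^ 3 ≤ ∑ g : {g : Fin C.nodes // C.IsNonscalar g},
      ((linA (C.poly (inp C g.1).1)).rank + (linA (C.poly (inp C g.1).2)).rank) := by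
  obtain ⟨W, hW⟩ := exists_alg C hC
  have h := hW.card_le_U
  rw [Fintype.card_fin, Fintype.sum_prod_type] at h
  refine le_trans (le_of_eq (by ring)) (h.trans (le_of_eq ?_))
  refine Finset.sum_congr rfl fun g _ => ?_
  rw [Fintype.sum_bool]
  simp only [if_true, Bool.false_eq_true, if_false]
  rw [add_comm]

open Classical in
theorem circuit_B (C : Circuit F (Vars m))
    (hC : ∀ i j, ∃ k : Fin C.nodes, C.poly k = entry F m i j) :
    m ^ 3 ≤ ∑ g : {g : Fin C.nodes // C.IsNonscalar g},
      ((linB (C.poly (inp C g.1).1)).rank + (linB (C.poly (inp C g.1).2)).rank) := by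
  obtain ⟨W, hW⟩ := exists_alg C hC
  have h := hW.card_le_V
  rw [Fintype.card_fin, Fintype.sum_prod_type] at h
  refine le_trans (le_of_eq (by ring)) (h.trans (le_of_eq ?_))
  refine Finset.sum_congr rfl fun g _ => ?_
  rw [Fintype.sum_bool]
  simp only [if_true, Bool.false_eq_true, if_false]

end

end Pool.Agent.H88R3.MM
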